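import Pool.Agent.L0h5.TU.Stm
import Pool.Agent.L0h5.TE.D15
import Pool.Agent.W135.RT.Par6
import Pool.Agent.W261.RT.Iso
import Pool.Agent.W376.RTL.Low6

/-!
# Project TU, module M1: the curves with a subgroup `Z/2 x Z/6` (helper57)
-/

set_option autoImplicit false
set_option linter.unusedSectionVars false

namespace Pool.Agent.L0h57.TU.S26

open Finset Polynomial Pool.Agent.W262.RK Pool.Agent.L0h5.TH Pool.Agent.L0h5.MR
  Pool.Agent.L0h5.TQ Pool.Agent.W307.RT Pool.Agent.L0h5.TE Pool.Agent.L0h5.TU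
open Pool.Agent.L0h5.TF hiding oo QF

/-- the factors -/
def dd : Fin 6 → ℤ × ℤ × ℤ :=
  ![(0, 1, 0), (0, 5, 2), (0, 2, 1), (0, 4, 1), (0, 1, 1), (0, 3, 1)]

/-- the constants -/
def aa : Fin 3 → ℤ := ![-1, -1, 1]

/-- the classes -/
def qq : Fin 6 → Fin 3 := ![0, 0, 1, 1, 2, 2]

/-- the multiplicities -/
def mm : Fin 6 → ℕ := ![3, 1, 3, 1, 1, 3]

/-- the forms -/
noncomputable abbrev F6 (k : Fin 3) : ℤ[X] := Fk (fun j => pol (dd j)) aa (fun _ => false) qq mm k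

lemma ok6 (j : Fin 6) : okp (dd j) := by
  fin_cases j
  · exact Or.inl ⟨rfl, by norm_num [dd]⟩
  · exact Or.inl ⟨rfl, by norm_num [dd]⟩
  · exact Or.inl ⟨rfl, by norm_num [dd]⟩
  · exact Or.inl ⟨rfl, by norm_num [dd]⟩
  · exact Or.inl ⟨rfl, by norm_num [dd]⟩
  · exact Or.inl ⟨rfl, by norm_num [dd]⟩

lemma fm6 : Fm (fun j => pol (dd j)) aa := by
  refine fm_of dd aa ok6 (by decide) (by decide)

lemma F60 : F6 0 = -((pol (0, 1, 0)) ^ 3 * pol (0, 5, 2)) := by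
  unfold F6 Fk mu
  simp [Fin.prod_univ_succ, dd, aa, qq, mm]

lemma F61 : F6 1 = -((pol (0, 2, 1)) ^ 3 * pol (0, 4, 1)) := by
  unfold F6 Fk mu
  simp [Fin.prod_univ_succ, dd, aa, qq, mm]

lemma F62 : F6 2 = pol (0, 1, 1) * (pol (0, 3, 1)) ^ 3 := by
  unfold F6 Fk mu
  simp [Fin.prod_univ_succ, dd, aa, qq, mm]

lemma rel6 : F6 0 - F6 1 = F6 2 := by
  rw [F60, F61, F62]
  simp only [pol_eq, map_zero, map_one, map_ofNat]
  ring

lemma deg6 (k : Fin 3) : (F6 k).natDegree = 2 * 2 := by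
  rw [natDegree_Fk fm6 k (fun j => dgp (dd j)) (fun j => natDegree_pol (ok6 j))]
  revert k
  decide

lemma hv60 (u v : ℤ) : hv (F6 0) (u, v - 2 * u) = -(M6 u v) := by
  have h0 : okp (0, 1, 0) := Or.inl ⟨rfl, by norm_num⟩
  have h1 : okp (0, 5, 2) := Or.inl ⟨rfl, by norm_num⟩
  have e : F6 0 = C (-1) * ((pol (0, 1, 0)) ^ 3 * pol (0, 5, 2)) := by
    rw [F60, map_neg, map_one]
    ring
  rw [e, hv_mul, hv_C, hv_mul, hv_pow, hv_pol h0, hv_pol h1]
  unfold M6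
  simp only [if_true]
  ring

lemma hv61 (u v : ℤ) : hv (F6 1) (u, v - 2 * u) = -(N6 u v) := by
  have h0 : okp (0, 2, 1) := Or.inl ⟨rfl, by norm_num⟩
  have h1 : okp (0, 4, 1) := Or.inl ⟨rfl, by norm_num⟩
  have e : F6 1 = C (-1) * ((pol (0, 2, 1)) ^ 3 * pol (0, 4, 1)) := by
    rw [F61, map_neg, map_one]
    ring
  rw [e, hv_mul, hv_C, hv_mul, hv_pow, hv_pol h0, hv_pol h1]
  unfold N6
  simp only [if_true]
  ring

open Classical in
/-- the splitting bits -/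
noncomputable def ss (j : Fin 6) : Bool := decide
  (IsSquare (AdjoinRoot.mk ((pol (dd j)).map (Int.castRingHom ℚ))
      ((kapQ (fun j => pol (dd j)) aa (fun _ => false) qq mm j 0).map (Int.castRingHom ℚ))))

lemma crit6 : CritA qq (fun j => evG mm j && !(ss j)) := by
  have e : (fun j => evG mm j && !(ss j)) = (fun _ : Fin 6 => false) := by
    funext j
    have h1 : evG mm j = false := by
      revert j
      decide
    rw [h1, Bool.false_and]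
  rw [e]
  intro a _
  left
  revert a
  decide

open Classical in
lemma fam6 : Fam2 (fun j => pol (dd j)) aa qq mm 2 ss where
  fm := fm6
  rel := rel6
  deg := deg6
  mul := by decide
  spl := fun j => by
    unfold ss
    rw [decide_eq_true_iff]
  crt := crit6

open Classical in
lemma mono6 (H H' : ℕ) (h : H ≤ H') : Cv 6 H ⊆ Cv 6 H' := by
  intro c hc
  unfold Cv at hc ⊢
  rw [mem_filter, mem_product, mem_Icc, mem_Icc] at hc ⊢
  have h1 : (H : ℤ) ≤ H' := by exact_mod_cast h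
  obtain ⟨⟨⟨a1, a2⟩, a3, a4⟩, b1, b2, b3, b4⟩ := hc
  exact ⟨⟨⟨by linarith, by linarith⟩, by linarith, by linarith⟩, b1, by linarith, by linarith, b4⟩

lemma card6 : ∃ Cb : ℝ, ∀ T : ℕ, 1 ≤ T → ((BoxM M6 N6 T).card : ℝ) ≤ Cb * (T : ℝ) ^ 2 := by
  refine ⟨9, fun T hT => ?_⟩
  have h1 : (BoxM M6 N6 T).card ≤ (Box T).card := card_le_card (filter_subset _ _)
  have h2 : (Box T).card = (2 * T + 1) * (2 * T + 1) := by
    unfold Box
    rw [card_product, Int.card_Icc]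
    have : ((T : ℤ) + 1 - -(T : ℤ)).toNat = 2 * T + 1 := by omega
    rw [this]
  have h3 : (1 : ℝ) ≤ T := by exact_mod_cast hT
  calc ((BoxM M6 N6 T).card : ℝ) ≤ ((Box T).card : ℝ) := by exact_mod_cast h1
    _ = (2 * (T : ℝ) + 1) * (2 * T + 1) := by rw [h2]; push_cast; ring
    _ ≤ 9 * (T : ℝ) ^ 2 := by nlinarith

lemma par6 : PARa (Cv 6) 24 (BoxM M6 N6) rkS (rkM M6 N6) := by
  obtain ⟨C, F, hF⟩ := Pool.Agent.W135.RT.par6_of Pool.Agent.W261.RT.iso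
  refine ⟨C, F, fun H => ⟨(hF H).1, fun c hc => ?_⟩⟩
  obtain ⟨a1, a2, a3, a4, a5, a6, a7⟩ := (hF H).2 c hc
  refine ⟨fun T hT => ?_, le_of_eq a7⟩
  unfold BoxM
  rw [mem_filter, mem_Box]
  refine ⟨⟨?_, ?_⟩, a1, a2, a3, a4⟩
  · have := (Nat.pow_lt_pow_iff_left (by norm_num : (24 : ℕ) ≠ 0)).1 (lt_of_le_of_lt a5 hT)
    omega
  · have := (Nat.pow_lt_pow_iff_left (by norm_num : (24 : ℕ) ≠ 0)).1 (lt_of_le_of_lt a6 hT)
    omega

lemma low6 : LOWa (Cv 6) 24 2 := Pool.Agent.W376.RTL.low6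

/-- **M1** -/
theorem s2_f26 (hK : S2_BOX) (hL : S2_ASM) : S2_F26 :=
  hL (Cv 6) (BoxM M6 N6) 24 2 rkS (rkM M6 N6) (by norm_num) (by norm_num) mono6 card6 par6 low6
    (hK (Fin 6) (fun j => pol (dd j)) aa qq mm 2 ss fam6 M6 N6 hv60 hv61)

end Pool.Agent.L0h57.TU.S26
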