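import Pool.Agent.L0h71.TT.Lam
import Pool.Agent.L0h5.TH.Loc

/-!
# Projects TU, TV: the local density in characters (helper57)
-/

set_option autoImplicit false

namespace Pool.Agent.L0h57.TU

open Finset Pool.Agent.L0h5.TH Pool.Agent.L0h94.FT Pool.Agent.L0h5.TF
open Pool.Agent.L0h5.TT (vvk xxk)
open Pool.Agent.L0h71.TT (prod_sum2 vvk_eq)
open Pool.Agent.W262.RK (ec sg0)

lemma LL_Lce' (c : Fin 3) (κ : Fin 3 → ℤ) (neg : Bool) (p : ℕ) (v w h g : Bool) :
    Pool.Agent.W262.RK.LL c.castSucc κ neg p v w h g ↔ Lce c (sg0 p (κ 0)) v w h g := by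
  unfold Pool.Agent.W262.RK.LL Lce
  fin_cases c <;> simp

/-- the case of the split types and of the odd multiplicities -/
lemma lstE_gen {k : ℕ} (c : Fin 3) (evn : Bool) (κ : Fin 3 → ℤ) (p : ℕ)
    (hn : ¬ nsE c.castSucc evn κ p = true) (v h : Vk k) :
    lstE c.castSucc evn κ p v h = ∑ b : Fin k → Bool, ∑ x : Fin k → Bool,
      if vvk c b = v then ((1 / 2 : ℝ) ^ k *
        ∏ i, (if (b i && x i && sg0 p (κ 0)) = true then (-1 : ℝ) else 1)) * chi (xxk c x) h
      else 0 := by
  classical
  have h1 : ∀ neg : Bool, ∏ i, iL (LE c.castSucc evn κ neg p) (v i) (h i) =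
      ∑ b : Fin k → Bool, ∑ x : Fin k → Bool,
      if vvk c b = v then ((1 / 2 : ℝ) ^ k *
        ∏ i, (if (b i && x i && sg0 p (κ 0)) = true then (-1 : ℝ) else 1)) * chi (xxk c x) h
      else 0 := by
    intro neg
    have h2 : ∀ i, iL (LE c.castSucc evn κ neg p) (v i) (h i) =
        iL (Lce c (sg0 p (κ 0))) (v i) (h i) := by
      intro i
      unfold iL
      have h3 := LE_or (neg := neg) hn (v i).1 (v i).2 (h i).1 (h i).2
      rw [LL_Lce'] at h3
      by_cases h4 : Lce c (sg0 p (κ 0)) (v i).1 (v i).2 (h i).1 (h i).2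
      · rw [if_pos h4, if_pos (h3.2 h4)]
      · rw [if_neg h4, if_neg (fun h5 => h4 (h3.1 h5))]
    rw [Finset.prod_congr rfl fun i _ => h2 i,
      Finset.prod_congr rfl fun i _ => iL_eq c (sg0 p (κ 0)) (v i) (h i), prod_sum2]
    apply Finset.sum_congr rfl
    intro b _
    apply Finset.sum_congr rfl
    intro x _
    rw [Finset.prod_mul_distrib, Finset.prod_mul_distrib, Finset.prod_mul_distrib,
      Finset.prod_const, card_univ, Fintype.card_fin, vvk_eq, chi_prod]
    by_cases h3 : vvk c b = v
    · rw [if_pos h3, if_pos h3, one_mul]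
      rfl
    · rw [if_neg h3, if_neg h3, zero_mul]
  unfold lstE
  rw [Fintype.sum_bool]
  have h4 := h1 true
  have h5 := h1 false
  rw [h4, h5]
  ring

/-- the nonsplit even case -/
lemma lstE_ns {k : ℕ} (c : Fin 3) (evn : Bool) (κ : Fin 3 → ℤ) (p : ℕ)
    (hn : nsE c.castSucc evn κ p = true) (v h : Vk k) :
    lstE c.castSucc evn κ p v h = if v = (fun _ => (false, false)) then 1 else 0 := by
  classical
  have h1 : ∀ neg : Bool, ∏ i, iL (LE c.castSucc evn κ neg p) (v i) (h i) =
      if v = (fun _ => (false, false)) then (1 : ℝ) else 0 := by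
    intro neg
    unfold iL
    rw [prod_boole]
    have h2 : (∀ i ∈ (univ : Finset (Fin k)),
        LE c.castSucc evn κ neg p (v i).1 (v i).2 (h i).1 (h i).2) ↔
        v = (fun _ => (false, false)) := by
      constructor
      · intro h3
        funext i
        have h4 := (LE_ns hn _ _ _ _).1 (h3 i (mem_univ i))
        exact Prod.ext h4.1 h4.2
      · intro h3 i _
        rw [LE_ns hn, h3]
        exact ⟨rfl, rfl⟩
    simp only [h2]
  unfold lstE
  rw [Fintype.sum_bool]
  have h4 := h1 true
  have h5 := h1 false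
  rw [h4, h5]
  ring

lemma nsE_eq (c : Fin 3) (evn : Bool) (κ : Fin 3 → ℤ) (p : ℕ) :
    nsE c.castSucc evn κ p = (evn && sg0 p (κ 0)) := by
  unfold nsE
  have : c.castSucc ≠ 3 := by
    revert c; decide
  simp [this]

/-- **C**, the statement of `S2_LAM` -/
theorem lam_main (k : ℕ) (c : Fin 3) (evn : Bool) (κ : Fin 3 → ℤ) (p : ℕ) :
    ∃ cf : (Fin k → Bool) → (Fin k → Bool) → ℝ,
    (∀ v h : Vk k, lstE c.castSucc evn κ p v h =
      ∑ b : Fin k → Bool, ∑ x : Fin k → Bool,
        if vvk c b = v then cf b x * chi (xxk c x) h else 0) ∧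
    ((evn && sg0 p (κ 0)) = true → ∀ b x, |cf b x| ≤
      if b = (fun _ => false) ∧ x = (fun _ => false) then 1 else 0) ∧
    (¬ (evn && sg0 p (κ 0)) = true → ∀ b x, |cf b x| ≤ (1 / 2) ^ k) := by
  have hns := nsE_eq c evn κ p
  by_cases hn : (evn && sg0 p (κ 0)) = true
  · refine ⟨fun b x => if b = (fun _ => false) ∧ x = (fun _ => false) then 1 else 0,
      fun v h => ?_, fun _ b x => ?_, fun h => absurd hn h⟩
    · rw [lstE_ns c evn κ p (by rw [hns]; exact hn)]
      have h0 : vvk c (fun _ : Fin k => false) = (fun _ => (false, false)) := by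
        funext i
        unfold vvk ev
        simp
      have h0' : chi (xxk c (fun _ : Fin k => false)) h = 1 := by
        rw [chi_prod]
        apply Finset.prod_eq_one
        intro i _
        unfold xxk ex ch1
        simp
      rw [Finset.sum_eq_single (fun _ => false)]
      · rw [Finset.sum_eq_single (fun _ => false)]
        · rw [h0, h0']
          by_cases h3 : v = (fun _ => (false, false))
          · rw [if_pos h3, if_pos h3.symm]
            simp
          · rw [if_neg h3, if_neg (fun h4 => h3 h4.symm)]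
        · intro x _ hx
          beta_reduce
          rw [if_neg (fun h4 : (fun _ : Fin k => false) = (fun _ => false) ∧
            x = (fun _ => false) => hx h4.2), zero_mul, ite_self]
        · intro h4
          exact absurd (mem_univ _) h4
      · intro b _ hb
        apply Finset.sum_eq_zero
        intro x _
        beta_reduce
        rw [if_neg (fun h4 : b = (fun _ => false) ∧ x = (fun _ => false) => hb h4.1), zero_mul,
          ite_self]
      · intro h4
        exact absurd (mem_univ _) h4
    · beta_reduce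
      by_cases h4 : b = (fun _ => false) ∧ x = (fun _ => false)
      · rw [if_pos h4, abs_one]
      · rw [if_neg h4, abs_zero]
  · refine ⟨fun b x => (1 / 2 : ℝ) ^ k *
        ∏ i, (if (b i && x i && sg0 p (κ 0)) = true then (-1 : ℝ) else 1),
      fun v h => lstE_gen c evn κ p (by rw [hns]; exact hn) v h, fun h => absurd h hn,
      fun _ b x => ?_⟩
    rw [abs_mul, Finset.abs_prod, abs_of_pos (by positivity : (0 : ℝ) < (1 / 2) ^ k)]
    have h1 : ∏ i, |(if (b i && x i && sg0 p (κ 0)) = true then (-1 : ℝ) else 1)| = 1 := by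
      apply Finset.prod_eq_one
      intro i _
      split_ifs <;> simp
    rw [h1, mul_one]

/-- the sign -/
lemma sign_prod {k : ℕ} (b x : Fin k → Bool) (s : Bool) :
    ∏ i, (if (b i && x i && s) = true then (-1 : ℝ) else 1) =
      if (s && decide (Odd (univ.filter (fun m => b m = true ∧ x m = true)).card)) = true
        then -1 else 1 := by
  cases s
  · rw [Finset.prod_eq_one fun i _ => by simp]
    simp
  · have h1 : ∏ i, (if (b i && x i && true) = true then (-1 : ℝ) else 1) =
        (-1) ^ (univ.filter (fun m => b m = true ∧ x m = true)).card := by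
      rw [Finset.prod_congr rfl fun i _ => by
        rw [Bool.and_true], Finset.prod_ite, Finset.prod_const, Finset.prod_const_one, mul_one]
      congr 2
      ext m
      simp [Bool.and_eq_true]
    rw [h1, Bool.true_and]
    by_cases h : Odd (univ.filter (fun m => b m = true ∧ x m = true)).card
    · rw [h.neg_one_pow]
      simp [h]
    · rw [(Nat.not_odd_iff_even.1 h).neg_one_pow]
      simp [h]

/-- **V4**, the statement of `S3_LAM` -/
theorem lam_exact (k : ℕ) (c : Fin 3) (evn : Bool) (κ : Fin 3 → ℤ) (p : ℕ)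
    (hn : (evn && sg0 p (κ 0)) = false) (v h : Vk k) : lstE c.castSucc evn κ p v h =
    ∑ b : Fin k → Bool, ∑ x : Fin k → Bool,
      if vvk c b = v then
        ((1 / 2 : ℝ) ^ k * (if (sg0 p (κ 0) &&
          decide (Odd (univ.filter (fun m => b m = true ∧ x m = true)).card)) = true
          then -1 else 1)) * chi (xxk c x) h
      else 0 := by
  rw [lstE_gen c evn κ p (by rw [nsE_eq, hn]; simp)]
  apply Finset.sum_congr rfl
  intro b _
  apply Finset.sum_congr rfl
  intro x _
  rw [sign_prod]

end Pool.Agent.L0h57.TU
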