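import Pool.Agent.L0h5.TU.Stm
import Pool.Agent.L0h57.TU.LamG

/-!
# Project TU, module C: the local density in characters (helper57)
-/

set_option autoImplicit false

namespace Pool.Agent.L0h57.TU

/-- **C** -/
theorem s2_lam : Pool.Agent.L0h5.TU.S2_LAM := by
  intro k c evn κ p
  exact lam_main k c evn κ p

end Pool.Agent.L0h57.TU
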